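import Mathlib

namespace Pool.Agent.Results.MP_295a7b_co.NineTwelve

/-- An explicit list of 65 triples of elements of `Fin 12`. -/
def triples : List (Fin 12 × Fin 12 × Fin 12) :=
  [(0,1,4),(0,1,8),(0,1,10),(0,2,6),(0,2,11),(0,3,6),(0,3,9),(0,3,11),(0,4,11),(0,5,6),(0,5,7),
   (0,5,9),(0,5,10),(0,7,8),(0,7,9),(0,8,10),(1,2,5),(1,2,7),(1,2,10),(1,3,7),(1,3,8),(1,3,9),
   (1,4,5),(1,4,9),(1,5,11),(1,6,7),(1,6,8),(1,6,9),(1,10,11),(2,3,4),(2,3,6),(2,3,9),(2,4,7),
   (2,4,8),(2,4,10),(2,5,6),(2,5,9),(2,7,10),(2,8,9),(2,8,11),(3,4,8),(3,5,7),(3,5,10),(3,5,11),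
   (3,6,10),(3,7,11),(3,8,9),(4,5,8),(4,5,10),(4,6,7),(4,6,8),(4,6,11),(4,7,9),(4,10,11),
   (5,6,9),(5,8,11),(6,8,10),(6,9,11),(6,10,11),(7,8,10),(7,8,11),(7,9,10),(7,9,11),(8,9,10),
   (9,10,11)]

/-- The edge set of the counterexample. -/
def edges : Finset (Finset (Fin 12)) :=
  (triples.map (fun t => ({t.1, t.2.1, t.2.2} : Finset (Fin 12)))).toFinset

theorem triples_three : ∀ t ∈ triples, t.1 < t.2.1 ∧ t.2.1 < t.2.2 := by decide +kernel

theorem edges_three : ∀ e ∈ edges, e.card = 3 := by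
  intro e he
  rw [edges, List.mem_toFinset, List.mem_map] at he
  obtain ⟨t, ht, rfl⟩ := he
  obtain ⟨h1, h2⟩ := triples_three t ht
  rw [Finset.card_eq_three]
  exact ⟨t.1, t.2.1, t.2.2, h1.ne, (h1.trans h2).ne, h2.ne, rfl⟩

/-- Bitmasks of the 65 triples. -/
def masks : List ℕ := triples.map (fun t => 2 ^ t.1.val + 2 ^ t.2.1.val + 2 ^ t.2.2.val)

theorem masks_nodup : masks.Nodup := by decide +kernel

/-- Number of the triples that avoid three given points, computed with bitmasks. -/
def cnt (a b c : ℕ) : ℕ :=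
  (masks.filter (fun m => !(m.testBit a) && !(m.testBit b) && !(m.testBit c))).length

theorem cnt_le : ∀ a ∈ List.range 12, ∀ b ∈ List.range 12, ∀ c ∈ List.range 12,
    a < b → b < c → cnt a b c ≤ 27 := by decide +kernel

theorem mask_bit : ∀ t ∈ triples, ∀ a : Fin 12,
    (2 ^ t.1.val + 2 ^ t.2.1.val + 2 ^ t.2.2.val).testBit a.val
      = decide (a ∈ ({t.1, t.2.1, t.2.2} : Finset (Fin 12))) := by decide +kernel

theorem edges_card : edges.card = 65 := by
  have hnd : (triples.map (fun t => ({t.1, t.2.1, t.2.2} : Finset (Fin 12)))).Nodup := by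
    rw [List.nodup_map_iff_inj_on (List.Nodup.of_map _ masks_nodup)]
    intro x hx y hy hxy
    have h3 := List.inj_on_of_nodup_map masks_nodup hx hy
    apply h3
    apply Nat.eq_of_testBit_eq
    intro i
    rcases lt_or_ge i 12 with hi | hi
    · rw [mask_bit x hx ⟨i, hi⟩, mask_bit y hy ⟨i, hi⟩, hxy]
    · have hlt : ∀ t : Fin 12 × Fin 12 × Fin 12, t.1 < t.2.1 ∧ t.2.1 < t.2.2 →
          (2 ^ t.1.val + 2 ^ t.2.1.val + 2 ^ t.2.2.val).testBit i = false := by
        intro t ht
        apply Nat.testBit_lt_two_pow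
        have h4 : t.2.2.val ≤ 11 := by omega
        have h5 : t.2.1.val ≤ 10 := by omega
        have h6 : t.1.val ≤ 9 := by omega
        have := Nat.pow_le_pow_right (n := 2) (by norm_num) h4
        have := Nat.pow_le_pow_right (n := 2) (by norm_num) h5
        have := Nat.pow_le_pow_right (n := 2) (by norm_num) h6
        have := Nat.pow_le_pow_right (n := 2) (by norm_num) hi
        omega
      rw [hlt x (triples_three x hx), hlt y (triples_three y hy)]
  rw [edges, List.toFinset_card_of_nodup hnd, List.length_map]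
  rfl

theorem filter_card_le (a b c : Fin 12) :
    (edges.filter (fun e => Disjoint e {a, b, c})).card ≤ cnt a b c := by
  classical
  unfold cnt masks edges
  rw [List.filter_map, List.length_map]
  have h1 : (triples.map (fun t => ({t.1, t.2.1, t.2.2} : Finset (Fin 12)))).toFinset.filter
      (fun e => Disjoint e {a, b, c}) ⊆
      ((triples.filter (fun t => !((2 ^ t.1.val + 2 ^ t.2.1.val + 2 ^ t.2.2.val).testBit a.val)
        && !((2 ^ t.1.val + 2 ^ t.2.1.val + 2 ^ t.2.2.val).testBit b.val)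
        && !((2 ^ t.1.val + 2 ^ t.2.1.val + 2 ^ t.2.2.val).testBit c.val))).map
        (fun t => ({t.1, t.2.1, t.2.2} : Finset (Fin 12)))).toFinset := by
    intro e he
    rw [Finset.mem_filter, List.mem_toFinset, List.mem_map] at he
    obtain ⟨⟨t, ht, rfl⟩, hd⟩ := he
    rw [List.mem_toFinset, List.mem_map]
    refine ⟨t, ?_, rfl⟩
    rw [List.mem_filter]
    refine ⟨ht, ?_⟩
    rw [mask_bit t ht a, mask_bit t ht b, mask_bit t ht c]
    rw [Finset.disjoint_right] at hd
    have ha := hd (show a ∈ ({a, b, c} : Finset (Fin 12)) by simp)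
    have hb := hd (show b ∈ ({a, b, c} : Finset (Fin 12)) by simp)
    have hc := hd (show c ∈ ({a, b, c} : Finset (Fin 12)) by simp)
    simp only [ha, hb, hc]
    rfl
  refine (Finset.card_le_card h1).trans ((List.toFinset_card_le _).trans ?_)
  rw [List.length_map]
  exact le_of_eq rfl

theorem edges_disj (T : Finset (Fin 12)) (hT : T.card = 3) :
    (edges.filter (fun e => Disjoint e T)).card ≤ 27 := by
  have key : ∀ a b c : Fin 12, a < b → b < c → T = {a, b, c} →
      (edges.filter (fun e => Disjoint e T)).card ≤ 27 := by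
    intro a b c hab hbc h
    subst h
    exact (filter_card_le a b c).trans
      (cnt_le a (List.mem_range.mpr a.2) b (List.mem_range.mpr b.2) c (List.mem_range.mpr c.2)
        hab hbc)
  have hs := T.orderEmbOfFin hT
  have e0 := Finset.range_orderEmbOfFin T hT
  refine key (T.orderEmbOfFin hT 0) (T.orderEmbOfFin hT 1) (T.orderEmbOfFin hT 2)
    ((T.orderEmbOfFin hT).strictMono (by decide)) ((T.orderEmbOfFin hT).strictMono (by decide)) ?_
  ext x
  rw [← Finset.mem_coe, ← e0]
  simp only [Set.mem_range, Finset.mem_insert, Finset.mem_singleton]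
  constructor
  · rintro ⟨i, rfl⟩
    fin_cases i <;> simp
  · rintro (h | h | h)
    · exact ⟨0, h.symm⟩
    · exact ⟨1, h.symm⟩
    · exact ⟨2, h.symm⟩

/-- The expected statement fails: for some `n ≥ 3` there is a 3-graph with `3n` vertices and
`n^3 + 1` edges in which every nine vertices span at most 27 edges. -/
theorem result :
    ∃ n : ℕ, 3 ≤ n ∧ ∃ E : Finset (Finset (Fin (3 * n))),
      (∀ e ∈ E, e.card = 3) ∧ E.card = n ^ 3 + 1 ∧
      ∀ S : Finset (Fin (3 * n)), S.card = 9 → (E.filter (fun e => e ⊆ S)).card ≤ 27 := by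
  refine ⟨4, by norm_num, edges, edges_three, edges_card, ?_⟩
  intro S hS
  have h := edges_disj Sᶜ (by
    rw [Finset.card_compl, hS]
    rfl)
  have h2 : edges.filter (fun e => e ⊆ S) = edges.filter (fun e => Disjoint e Sᶜ) := by
    apply Finset.filter_congr
    intro e _
    exact disjoint_compl_right_iff.symm
  rw [h2]
  exact h

end Pool.Agent.Results.MP_295a7b_co.NineTwelve
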